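import Mathlib

/-!
# MP_6bd103_gt, Q2: closed regular images of paralindelof spaces need not be paralindelof
-/

namespace Pool.Agent.Results.MP_6bd103_gt.ClosedImages

open Set Topology

universe u

/-- Every point has a neighbourhood meeting only countably many members of `V`. -/
def LocallyCountable {X : Type u} [TopologicalSpace X] (V : Set (Set X)) : Prop :=
  ∀ x : X, ∃ N ∈ 𝓝 x, {s | s ∈ V ∧ (s ∩ N).Nonempty}.Countable

/-- Every open cover has a locally countable open refinement (which is again a cover). -/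
def Paralindelof (X : Type u) [TopologicalSpace X] : Prop :=
  ∀ U : Set (Set X), (∀ s ∈ U, IsOpen s) → ⋃₀ U = univ →
    ∃ V : Set (Set X), (∀ s ∈ V, IsOpen s) ∧ ⋃₀ V = univ ∧ (∀ s ∈ V, ∃ t ∈ U, s ⊆ t) ∧
      LocallyCountable V

/-! ## Codes -/

theorem exists_phi : ∃ φ : ℝ → (ℕ → List ℝ), Function.Surjective φ := by
  have h1 : Cardinal.mk (List ℝ) = Cardinal.continuum := by
    rw [Cardinal.mk_list_eq_mk, Cardinal.mk_real]
  have h : Cardinal.mk (ℕ → List ℝ) = Cardinal.mk ℝ := by
    rw [← Cardinal.power_def, h1, Cardinal.mk_nat, Cardinal.continuum_power_aleph0,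
      Cardinal.mk_real]
  obtain ⟨e⟩ := Cardinal.eq.1 h
  exact ⟨e.symm, e.symm.surjective⟩

/-- A surjection from the reals onto the sequences of finite lists of reals. -/
noncomputable def phi : ℝ → (ℕ → List ℝ) := exists_phi.choose

theorem phi_surj : Function.Surjective phi := exists_phi.choose_spec

/-- The countable set of lists coded by a real number. -/
def code (c : ℝ) : Set (List ℝ) := Set.range (phi c)

theorem code_countable (c : ℝ) : (code c).Countable := Set.countable_range _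

theorem exists_code {C : Set (List ℝ)} (hC : C.Countable) : ∃ c, C ⊆ code c := by
  rcases C.eq_empty_or_nonempty with rfl | hne
  · exact ⟨0, Set.empty_subset _⟩
  · obtain ⟨f, hf⟩ := hC.exists_eq_range hne
    obtain ⟨c, hc⟩ := phi_surj f
    exact ⟨c, by rw [hf, code, hc]⟩

/-! ## Nodes of branches -/

/-- The node of level `n` of the branch `h`. -/
def node (h : ℕ → ℝ) : ℕ → List ℝ
  | 0 => [h 0]
  | n + 1 => h (n + 1) :: node h n

theorem node_ne_nil (h : ℕ → ℝ) (n : ℕ) : node h n ≠ [] := by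
  cases n <;> simp [node]

theorem node_pred {h g : ℕ → ℝ} {n : ℕ} (e : node h (n + 1) = node g (n + 1)) :
    node h n = node g n := by
  simp only [node, List.cons.injEq] at e
  exact e.2

theorem node_le {h g : ℕ → ℝ} {m n : ℕ} (hmn : m ≤ n) (e : node h n = node g n) :
    node h m = node g m := by
  induction n, hmn using Nat.le_induction with
  | base => exact e
  | succ n hn ih => exact ih (node_pred e)

theorem node_coord {h g : ℕ → ℝ} {n : ℕ} (e : node h n = node g n) : h n = g n := by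
  cases n with
  | zero => simpa [node] using e
  | succ n =>
    simp only [node, List.cons.injEq] at e
    exact e.1

theorem node_zero {h g : ℕ → ℝ} {n : ℕ} (e : node h n = node g n) : h 0 = g 0 :=
  node_coord (node_le (Nat.zero_le n) e)

/-- Two nodes of the same level know each other: their roots differ, and each projection of one
of them is a member of the countable set coded by the next coordinate of the other one. -/
def Adj : List ℝ → List ℝ → Prop
  | c :: z, d :: w => (z = [] ∧ w = [] ∧ c ≠ d) ∨ (Adj z w ∧ w ∈ code c ∧ z ∈ code d)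
  | _, _ => False

theorem adj_succ {h g : ℕ → ℝ} {n : ℕ} (e : Adj (node h (n + 1)) (node g (n + 1))) :
    Adj (node h n) (node g n) ∧ node g n ∈ code (h (n + 1)) ∧ node h n ∈ code (g (n + 1)) := by
  simp only [node, Adj] at e
  rcases e with ⟨e, -, -⟩ | e
  · exact absurd e (node_ne_nil _ _)
  · exact e

theorem adj_le {h g : ℕ → ℝ} {m n : ℕ} (hmn : m ≤ n) (e : Adj (node h n) (node g n)) :
    Adj (node h m) (node g m) := by
  induction n, hmn using Nat.le_induction with
  | base => exact e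
  | succ n hn ih => exact ih (adj_succ e).1

theorem adj_zero {h g : ℕ → ℝ} {n : ℕ} (e : Adj (node h n) (node g n)) : h 0 ≠ g 0 := by
  have := adj_le (Nat.zero_le n) e
  simp only [node, Adj] at this
  rcases this with ⟨-, -, h⟩ | ⟨h, -⟩
  · exact h
  · exact absurd h (by simp)

theorem adj_code {h g : ℕ → ℝ} {k n : ℕ} (hkn : k < n) (e : Adj (node h n) (node g n)) :
    node g k ∈ code (h (k + 1)) :=
  (adj_succ (adj_le (Nat.succ_le_of_lt hkn) e)).2.1

/-! ## The space `X` -/

/-- The isolated points: two branches `x false`, `x true` which know each other up to level `n`,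
with finite sets `F false`, `F true` of questions, on the common ones of which they agree. -/
structure Edge where
  n : ℕ
  x : Bool → (ℕ → ℝ)
  F : Bool → Finset (Set (ℕ → ℝ))
  adj : ∀ b c, b ≠ c → Adj (node (x b) n) (node (x c) n)
  agree : ∀ b c, ∀ S ∈ F b, S ∈ F c → (x b ∈ S ↔ x c ∈ S)

/-- The points of `X`: branches and edges. -/
inductive X
  | pt : (ℕ → ℝ) → X
  | ed : Edge → X

/-- The basic neighbourhoods of a branch. -/
def N (k : ℕ) (E : Finset (Set (ℕ → ℝ))) (h : ℕ → ℝ) : Set X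
  | .pt g => node g k = node h k
  | .ed i => ∃ b, k ≤ i.n ∧ node (i.x b) k = node h k ∧ E ⊆ i.F b

theorem pt_mem_N {k : ℕ} {E : Finset (Set (ℕ → ℝ))} {h g : ℕ → ℝ} :
    X.pt g ∈ N k E h ↔ node g k = node h k := Iff.rfl

theorem ed_mem_N {k : ℕ} {E : Finset (Set (ℕ → ℝ))} {h : ℕ → ℝ} {i : Edge} :
    X.ed i ∈ N k E h ↔ ∃ b, k ≤ i.n ∧ node (i.x b) k = node h k ∧ E ⊆ i.F b := Iff.rfl

theorem self_mem_N (k : ℕ) (E : Finset (Set (ℕ → ℝ))) (h : ℕ → ℝ) : X.pt h ∈ N k E h := rfl

theorem N_congr {k : ℕ} {E : Finset (Set (ℕ → ℝ))} {h g : ℕ → ℝ} (e : node g k = node h k) :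
    N k E g = N k E h := by
  ext p
  cases p with
  | pt f => rw [pt_mem_N, pt_mem_N, e]
  | ed i => simp only [ed_mem_N, e]

theorem N_anti {k k' : ℕ} {E E' : Finset (Set (ℕ → ℝ))} {h : ℕ → ℝ} (hk : k ≤ k')
    (hE : E ⊆ E') : N k' E' h ⊆ N k E h := by
  intro p hp
  cases p with
  | pt f => exact node_le hk hp
  | ed i =>
    obtain ⟨b, h1, h2, h3⟩ := hp
    exact ⟨b, hk.trans h1, node_le hk h2, hE.trans h3⟩

open Classical in
instance : TopologicalSpace X where
  IsOpen U := ∀ h, X.pt h ∈ U → ∃ k E, N k E h ⊆ U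
  isOpen_univ := fun h _ => ⟨0, ∅, subset_univ _⟩
  isOpen_inter := by
    rintro U V hU hV h ⟨h1, h2⟩
    obtain ⟨k, E, hk⟩ := hU h h1
    obtain ⟨k', E', hk'⟩ := hV h h2
    refine ⟨max k k', E ∪ E', subset_inter ?_ ?_⟩
    · exact (N_anti (le_max_left _ _) Finset.subset_union_left).trans hk
    · exact (N_anti (le_max_right _ _) Finset.subset_union_right).trans hk'
  isOpen_sUnion := by
    rintro S hS h ⟨U, hU, hh⟩
    obtain ⟨k, E, hk⟩ := hS U hU h hh
    exact ⟨k, E, hk.trans (subset_sUnion_of_mem hU)⟩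

theorem isOpen_X {U : Set X} : IsOpen U ↔ ∀ h, X.pt h ∈ U → ∃ k E, N k E h ⊆ U := Iff.rfl

theorem isOpen_N (k : ℕ) (E : Finset (Set (ℕ → ℝ))) (h : ℕ → ℝ) : IsOpen (N k E h) := by
  intro g hg
  exact ⟨k, E, (N_congr hg).subset⟩

theorem isOpen_ed (A : Set X) (hA : ∀ h, X.pt h ∉ A) : IsOpen A :=
  fun h hh => absurd hh (hA h)

/-! ## Cofinal extension -/

/-- Cofinally many one-step extensions of `z` satisfy `P`. -/
def cof (P : List ℝ → Prop) (z : List ℝ) : Prop :=
  ∀ C : Set (List ℝ), C.Countable → ∃ c, C ⊆ code c ∧ P (c :: z)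

theorem cof_mono {P Q : List ℝ → Prop} (h : ∀ z, P z → Q z) {z : List ℝ} (hz : cof P z) :
    cof Q z := by
  intro C hC
  obtain ⟨c, h1, h2⟩ := hz C hC
  exact ⟨c, h1, h _ h2⟩

theorem iter_mono (n : ℕ) {P Q : List ℝ → Prop} (h : ∀ z, P z → Q z) {z : List ℝ}
    (hz : (cof^[n] P) z) : (cof^[n] Q) z := by
  induction n generalizing P Q with
  | zero => exact h z hz
  | succ n ih =>
    rw [Function.iterate_succ_apply] at hz ⊢
    exact ih (fun z hz => cof_mono h hz) hz

theorem cof_exists {P : ℕ → List ℝ → Prop} {z : List ℝ} (hz : cof (fun w => ∃ b, P b w) z) :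
    ∃ b, cof (P b) z := by
  by_contra hcon
  have : ∀ b, ∃ C : Set (List ℝ), C.Countable ∧ ∀ c, C ⊆ code c → ¬ P b (c :: z) := by
    intro b
    by_contra h
    apply hcon
    refine ⟨b, fun C hC => ?_⟩
    by_contra h'
    exact h ⟨C, hC, fun c hc hc' => h' ⟨c, hc, hc'⟩⟩
  choose C hC hc using this
  obtain ⟨c, h1, b, h2⟩ := hz (⋃ b, C b) (countable_iUnion hC)
  exact hc b c ((subset_iUnion _ b).trans h1) h2

theorem iter_exists (n : ℕ) {P : ℕ → List ℝ → Prop} {z : List ℝ}
    (hz : (cof^[n] (fun w => ∃ b, P b w)) z) : ∃ b, (cof^[n] (P b)) z := by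
  induction n generalizing P with
  | zero => exact hz
  | succ n ih =>
    simp only [Function.iterate_succ_apply] at hz ⊢
    exact ih (iter_mono n (fun w hw => cof_exists hw) hz)

theorem exists_clique (A : Set ℝ) (hA : A.Countable) (n : ℕ) {P : List ℝ → Prop}
    (h : ∀ a ∈ A, (cof^[n] P) [a]) :
    ∃ z : ℝ → List ℝ, (∀ a ∈ A, P (z a)) ∧ ∀ a ∈ A, ∀ b ∈ A, a ≠ b → Adj (z a) (z b) := by
  induction n generalizing P with
  | zero => exact ⟨fun a => [a], h, fun a _ b _ hab => Or.inl ⟨rfl, rfl, hab⟩⟩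
  | succ n ih =>
    obtain ⟨z, hz, hadj⟩ := ih (P := cof P)
      (by simpa only [Function.iterate_succ_apply] using h)
    have : ∀ a, ∃ c, a ∈ A → (z '' A ⊆ code c ∧ P (c :: z a)) := by
      intro a
      by_cases ha : a ∈ A
      · obtain ⟨c, h1, h2⟩ := hz a ha (z '' A) (hA.image z)
        exact ⟨c, fun _ => ⟨h1, h2⟩⟩
      · exact ⟨0, fun h => absurd h ha⟩
    choose c hc using this
    refine ⟨fun a => c a :: z a, fun a ha => (hc a ha).2,
      fun a ha b hb hab => Or.inr ⟨hadj a ha b hb hab, ?_, ?_⟩⟩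
    · exact (hc a ha).1 ⟨b, hb, rfl⟩
    · exact (hc b hb).1 ⟨a, ha, rfl⟩

open Classical in
theorem exists_agree {ι α : Type} (x : ι → α) (b : ℕ) (J : Set ι) (hJ : J.Infinite)
    (E : ι → Finset (Set α)) (hE : ∀ j ∈ J, (E j).card ≤ b) :
    ∃ i ∈ J, ∃ j ∈ J, i ≠ j ∧ ∀ S ∈ E i, S ∈ E j → (x i ∈ S ↔ x j ∈ S) := by
  induction b generalizing J E with
  | zero =>
    obtain ⟨i, hi, j, hj, hij⟩ := hJ.nontrivial
    refine ⟨i, hi, j, hj, hij, fun S hS => ?_⟩
    have := Finset.card_eq_zero.1 (Nat.le_zero.1 (hE i hi))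
    rw [this] at hS
    exact absurd hS (Finset.notMem_empty _)
  | succ b ih =>
    by_contra hcon
    obtain ⟨i, hi⟩ := hJ.nonempty
    have hcov : J \ {i} ⊆ ⋃ S ∈ (E i : Set (Set α)),
        {j | j ∈ J ∧ S ∈ E j ∧ ¬ (x i ∈ S ↔ x j ∈ S)} := by
      rintro j ⟨hj, hji⟩
      by_contra h
      apply hcon
      refine ⟨i, hi, j, hj, fun e => hji e.symm, fun S hS hS' => ?_⟩
      by_contra h'
      exact h (mem_iUnion₂.2 ⟨S, hS, hj, hS', h'⟩)
    have hinf : (J \ {i}).Infinite := hJ.sdiff (finite_singleton i)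
    have : ∃ S ∈ E i, {j | j ∈ J ∧ S ∈ E j ∧ ¬ (x i ∈ S ↔ x j ∈ S)}.Infinite := by
      by_contra h
      exact hinf ((Set.Finite.biUnion (E i).finite_toSet
        (fun S hS => Set.not_infinite.1 (fun h' => h ⟨S, hS, h'⟩))).subset hcov)
    obtain ⟨S, hS, hSinf⟩ := this
    obtain ⟨j, ⟨hj, hSj, hj'⟩, k, ⟨hk, hSk, hk'⟩, hjk, hag⟩ :=
      ih _ hSinf (fun j => (E j).erase S) (fun j hj => by
        rw [Finset.card_erase_of_mem hj.2.1]
        have := hE j hj.1
        omega)
    refine hcon ⟨j, hj, k, hk, hjk, fun T hT hT' => ?_⟩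
    by_cases hTS : T = S
    · subst hTS
      tauto
    · exact hag T (Finset.mem_erase.2 ⟨hTS, hT⟩) (Finset.mem_erase.2 ⟨hTS, hT'⟩)

/-- The closed sets `{h | h 0 = a}`, for `a` in an uncountable set, cannot be separated. -/
theorem nonsep (A : Set ℝ) (hA : ¬ A.Countable) (k : (ℕ → ℝ) → ℕ)
    (E : (ℕ → ℝ) → Finset (Set (ℕ → ℝ))) :
    ∃ h g : ℕ → ℝ, h 0 ∈ A ∧ g 0 ∈ A ∧ h 0 ≠ g 0 ∧
      (N (k h) (E h) h ∩ N (k g) (E g) g).Nonempty := by
  by_contra hcon
  let P : ℕ → ℕ → List ℝ → Prop := fun n b z =>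
    ∃ h, node h n = z ∧ h 0 ∈ A ∧ k h ≤ n ∧ (E h).card ≤ b
  have hfin : ∀ n b, {a | (cof^[n] (P n b)) [a]}.Finite := by
    intro n b
    by_contra hinf
    have hinf' : {a | (cof^[n] (P n b)) [a]}.Infinite := hinf
    let e := hinf'.natEmbedding
    let B : Set ℝ := Set.range fun n => ((e n : _) : ℝ)
    have hBinf : B.Infinite := Set.infinite_range_of_injective
      (Subtype.val_injective.comp e.injective)
    have hBc : B.Countable := Set.countable_range _
    obtain ⟨z, hz, hadj⟩ := exists_clique B hBc n (P := P n b) (by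
      rintro a ⟨m, rfl⟩
      exact (e m).2)
    have : ∀ a, ∃ h : ℕ → ℝ, a ∈ B →
        node h n = z a ∧ h 0 ∈ A ∧ k h ≤ n ∧ (E h).card ≤ b := by
      intro a
      by_cases ha : a ∈ B
      · obtain ⟨h, hh⟩ := hz a ha
        exact ⟨h, fun _ => hh⟩
      · exact ⟨fun _ => 0, fun h => absurd h ha⟩
    choose h hh using this
    obtain ⟨a, ha, c, hc, hac, hag⟩ := exists_agree h b B hBinf (fun a => E (h a))
      (fun a ha => (hh a ha).2.2.2)
    have ad1 : Adj (node (h a) n) (node (h c) n) := by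
      rw [(hh a ha).1, (hh c hc).1]
      exact hadj a ha c hc hac
    have ad2 : Adj (node (h c) n) (node (h a) n) := by
      rw [(hh a ha).1, (hh c hc).1]
      exact hadj c hc a ha hac.symm
    let i : Edge :=
      { n := n
        x := fun b => if b then h a else h c
        F := fun b => if b then E (h a) else E (h c)
        adj := by
          intro b b' hbb
          cases b <;> cases b' <;> simp_all
        agree := by
          intro b b' S hS hS'
          cases b <;> cases b' <;> simp at hS hS' ⊢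
          · exact (hag S hS' hS).symm
          · exact hag S hS hS' }
    refine hcon ⟨h a, h c, (hh a ha).2.1, (hh c hc).2.1, adj_zero ad1, X.ed i, ?_, ?_⟩
    · exact ⟨true, (hh a ha).2.2.1, rfl, Finset.Subset.refl _⟩
    · exact ⟨false, (hh c hc).2.2.1, rfl, Finset.Subset.refl _⟩
  have hcount : (⋃ n, ⋃ b, {a | (cof^[n] (P n b)) [a]}).Countable :=
    countable_iUnion fun n => countable_iUnion fun b => (hfin n b).countable
  obtain ⟨a, haA, ha⟩ : ∃ a ∈ A, a ∉ ⋃ n, ⋃ b, {a | (cof^[n] (P n b)) [a]} := by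
    by_contra h
    push Not at h
    exact hA (hcount.mono h)
  let St : ℕ → List ℝ → Prop := fun n z => ∃ b, P n b z
  have hroot : ∀ j, ¬ (cof^[j] (St j)) [a] := by
    intro j hj
    obtain ⟨b, hb⟩ := iter_exists j hj
    exact ha (mem_iUnion.2 ⟨j, mem_iUnion.2 ⟨b, hb⟩⟩)
  let D : ℕ → List ℝ → Prop := fun m z => ∀ j, ¬ (cof^[j] (St (m + j))) z
  have hstep : ∀ m z, D m z → ∃ c, D (m + 1) (c :: z) := by
    intro m z hD
    have : ∀ j, ∃ C : Set (List ℝ), C.Countable ∧
        ∀ c, C ⊆ code c → ¬ (cof^[j] (St (m + (j + 1)))) (c :: z) := by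
      intro j
      have h1 := hD (j + 1)
      rw [Function.iterate_succ_apply'] at h1
      by_contra h
      apply h1
      intro C hC
      by_contra h'
      exact h ⟨C, hC, fun c hc hc' => h' ⟨c, hc, hc'⟩⟩
    choose C hC hc using this
    obtain ⟨c, hcc⟩ := exists_code (countable_iUnion hC)
    refine ⟨c, fun j => ?_⟩
    have e : m + 1 + j = m + (j + 1) := by omega
    rw [e]
    exact hc j c ((subset_iUnion _ j).trans hcc)
  have hD0 : D 0 [a] := fun j => by
    have := hroot j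
    rwa [Nat.zero_add]
  choose! c hc using hstep
  let s : ℕ → List ℝ := fun n => Nat.rec [a] (fun m z => c m z :: z) n
  have hs : ∀ n, D n (s n) := by
    intro n
    induction n with
    | zero => exact hD0
    | succ n ih => exact hc n _ ih
  let h : ℕ → ℝ := fun n => (s n).headI
  have hnode : ∀ n, node h n = s n := by
    intro n
    induction n with
    | zero => rfl
    | succ n ih =>
      rw [node, ih]
      rfl
  exact hs (k h) 0 ⟨(E h).card, h, hnode _, haA, le_rfl, le_rfl⟩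

/-! ## The space `Y` and the closed map -/

/-- The points of `Y`: the real numbers and the edges. -/
inductive Y
  | pt : ℝ → Y
  | ed : Edge → Y

/-- The map which collapses each of the sets `{h | h 0 = a}` to a point. -/
def f : X → Y
  | .pt h => .pt (h 0)
  | .ed i => .ed i

instance : TopologicalSpace Y := TopologicalSpace.coinduced f inferInstance

theorem isOpen_Y {V : Set Y} : IsOpen V ↔ IsOpen (f ⁻¹' V) := isOpen_coinduced

theorem continuous_f : Continuous f := continuous_coinduced_rng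

theorem surjective_f : Function.Surjective f := by
  rintro (a | i)
  · exact ⟨.pt fun _ => a, rfl⟩
  · exact ⟨.ed i, rfl⟩

theorem isClosedMap_f : IsClosedMap f := by
  intro F hF
  rw [← isOpen_compl_iff, isOpen_Y]
  intro h hh
  have h1 : X.pt h ∈ Fᶜ := fun h' => hh ⟨_, h', rfl⟩
  obtain ⟨k, E, hk⟩ := hF.isOpen_compl h h1
  refine ⟨k, E, ?_⟩
  rintro p hp ⟨q, hq, hqp⟩
  cases p with
  | pt g =>
    cases q with
    | pt g' =>
      apply hh
      refine ⟨.pt g', hq, ?_⟩
      rw [hqp]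
      simp only [f, Y.pt.injEq]
      exact node_zero hp
    | ed i => simp [f] at hqp
  | ed i =>
    cases q with
    | pt g' => simp [f] at hqp
    | ed j =>
      simp only [f, Y.ed.injEq] at hqp
      subst hqp
      exact hk hp hq

instance : T1Space X := by
  refine ⟨fun x => ?_⟩
  rw [← isOpen_compl_iff]
  intro h hh
  cases x with
  | pt g =>
    have hne : h ≠ g := fun e => hh (by rw [e]; rfl)
    obtain ⟨n, hn⟩ := Function.ne_iff.1 hne
    refine ⟨n, ∅, ?_⟩
    rintro _ hp rfl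
    exact hn (node_coord hp).symm
  | ed i =>
    refine ⟨i.n + 1, ∅, ?_⟩
    intro p hp hpi
    rw [Set.mem_singleton_iff] at hpi
    subst hpi
    obtain ⟨b, hb, -⟩ := hp
    omega

/-- The cylinder set of level `n` of the branches whose node of level `n` is not a node of a
branch in `B`. -/
def Miss (B : Set X) (n : ℕ) : Set (ℕ → ℝ) := {h | ∀ g, node g n = node h n → X.pt g ∉ B}

theorem miss_congr {B : Set X} {n : ℕ} {h g : ℕ → ℝ} (e : node g n = node h n)
    (hh : h ∈ Miss B n) : g ∈ Miss B n := fun g' hg' => hh g' (hg'.trans e)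

theorem sep_key {B : Set X} {k k' : ℕ} {E E' : Finset (Set (ℕ → ℝ))} {h g : ℕ → ℝ}
    (hk : k ≤ k') (hh : h ∈ Miss B k) (hE : Miss B k ∈ E) (hE' : Miss B k ∈ E')
    (hg : X.pt g ∈ B) (p : X) (hp : p ∈ N k E h) (hp' : p ∈ N k' E' g) : False := by
  cases p with
  | pt q =>
    have h1 : node q k = node h k := hp
    have h2 : node q k = node g k := node_le hk hp'
    exact hh g (h2.symm.trans h1) hg
  | ed i =>
    obtain ⟨b, -, hb, hbF⟩ := hp
    obtain ⟨c, -, hc, hcF⟩ := hp'
    have h1 : i.x b ∈ Miss B k := miss_congr hb hh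
    have h2 : i.x c ∈ Miss B k := (i.agree b c _ (hbF hE) (hcF hE')).1 h1
    exact h2 g (node_le hk hc).symm hg

open Classical in
theorem exists_good {A B : Set X} (hB : IsClosed B) (h : ℕ → ℝ) (hh : X.pt h ∉ B) :
    ∃ k E, N k E h ⊆ Bᶜ ∧ h ∈ Miss B k ∧ ∀ j ≤ k, Miss A j ∈ E ∧ Miss B j ∈ E := by
  obtain ⟨k, E, hk⟩ := hB.isOpen_compl h hh
  refine ⟨k, E ∪ ((Finset.range (k + 1)).image (Miss A) ∪ (Finset.range (k + 1)).image (Miss B)),
    (N_anti le_rfl Finset.subset_union_left).trans hk, ?_, ?_⟩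
  · intro g hg hg'
    exact hk (show X.pt g ∈ N k E h from hg) hg'
  · intro j hj
    constructor
    · exact Finset.mem_union_right _ (Finset.mem_union_left _
        (Finset.mem_image_of_mem _ (Finset.mem_range.2 (by omega))))
    · exact Finset.mem_union_right _ (Finset.mem_union_right _
        (Finset.mem_image_of_mem _ (Finset.mem_range.2 (by omega))))

instance : NormalSpace X := by
  refine ⟨fun A B hA hB hAB => ?_⟩
  have h1 : ∀ h, ∃ k E, X.pt h ∈ A →
      (N k E h ⊆ Bᶜ ∧ h ∈ Miss B k ∧ ∀ j ≤ k, Miss A j ∈ E ∧ Miss B j ∈ E) := by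
    intro h
    by_cases hh : X.pt h ∈ B
    · exact ⟨0, ∅, fun h' => absurd hh (Set.disjoint_left.1 hAB h')⟩
    · obtain ⟨k, E, hk⟩ := exists_good (A := A) hB h hh
      exact ⟨k, E, fun _ => hk⟩
  have h2 : ∀ h, ∃ k E, X.pt h ∈ B →
      (N k E h ⊆ Aᶜ ∧ h ∈ Miss A k ∧ ∀ j ≤ k, Miss B j ∈ E ∧ Miss A j ∈ E) := by
    intro h
    by_cases hh : X.pt h ∈ A
    · exact ⟨0, ∅, fun h' => absurd hh (Set.disjoint_right.1 hAB h')⟩
    · obtain ⟨k, E, hk⟩ := exists_good (A := B) hA h hh
      exact ⟨k, E, fun _ => hk⟩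
  choose k E hkE using h1
  choose l G hlG using h2
  refine ⟨{p | p ∈ A ∧ ∀ h, p ≠ X.pt h} ∪ ⋃ h ∈ {h | X.pt h ∈ A}, N (k h) (E h) h,
    {p | p ∈ B ∧ ∀ h, p ≠ X.pt h} ∪ ⋃ h ∈ {h | X.pt h ∈ B}, N (l h) (G h) h, ?_, ?_, ?_, ?_, ?_⟩
  · exact (isOpen_ed _ fun h hh => hh.2 h rfl).union (isOpen_biUnion fun h _ => isOpen_N _ _ _)
  · exact (isOpen_ed _ fun h hh => hh.2 h rfl).union (isOpen_biUnion fun h _ => isOpen_N _ _ _)
  · intro p hp
    cases p with
    | pt h => exact Or.inr (mem_iUnion₂.2 ⟨h, hp, self_mem_N _ _ _⟩)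
    | ed i => exact Or.inl ⟨hp, fun h => by simp⟩
  · intro p hp
    cases p with
    | pt h => exact Or.inr (mem_iUnion₂.2 ⟨h, hp, self_mem_N _ _ _⟩)
    | ed i => exact Or.inl ⟨hp, fun h => by simp⟩
  · rw [Set.disjoint_left]
    rintro p (hp | hp) (hp' | hp')
    · exact Set.disjoint_left.1 hAB hp.1 hp'.1
    · obtain ⟨g, hg, hpg⟩ := mem_iUnion₂.1 hp'
      exact (hlG g hg).1 hpg hp.1
    · obtain ⟨g, hg, hpg⟩ := mem_iUnion₂.1 hp
      exact (hkE g hg).1 hpg hp'.1
    · obtain ⟨h, hh, hph⟩ := mem_iUnion₂.1 hp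
      obtain ⟨g, hg, hpg⟩ := mem_iUnion₂.1 hp'
      obtain ⟨-, h3, h4⟩ := hkE h hh
      obtain ⟨-, h5, h6⟩ := hlG g hg
      rcases le_total (k h) (l g) with hle | hle
      · exact sep_key hle h3 (h4 _ le_rfl).2 (h6 _ hle).1 hg p hph hpg
      · exact sep_key hle h5 (h6 _ le_rfl).2 (h4 _ hle).1 hh p hpg hph

instance : T4Space X where

theorem normalSpace_of_closed {X Y : Type} [TopologicalSpace X] [TopologicalSpace Y]
    [NormalSpace X] {f : X → Y} (hf : Continuous f) (hs : Function.Surjective f)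
    (hc : IsClosedMap f) : NormalSpace Y := by
  refine ⟨fun A B hA hB hAB => ?_⟩
  obtain ⟨U, V, hU, hV, hAU, hBV, hUV⟩ := NormalSpace.normal (f ⁻¹' A) (f ⁻¹' B)
    (hA.preimage hf) (hB.preimage hf) (hAB.preimage f)
  refine ⟨(f '' Uᶜ)ᶜ, (f '' Vᶜ)ᶜ, (hc _ hU.isClosed_compl).isOpen_compl,
    (hc _ hV.isClosed_compl).isOpen_compl, ?_, ?_, ?_⟩
  · rintro y hy ⟨x, hx, rfl⟩
    exact hx (hAU hy)
  · rintro y hy ⟨x, hx, rfl⟩
    exact hx (hBV hy)
  · rw [Set.disjoint_left]
    intro y hy hy'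
    obtain ⟨x, rfl⟩ := hs y
    have h1 : x ∈ U := by
      by_contra h
      exact hy ⟨x, h, rfl⟩
    have h2 : x ∈ V := by
      by_contra h
      exact hy' ⟨x, h, rfl⟩
    exact Set.disjoint_left.1 hUV h1 h2

instance : T1Space Y := by
  refine ⟨fun y => ?_⟩
  obtain ⟨x, rfl⟩ := surjective_f y
  rw [← Set.image_singleton]
  exact isClosedMap_f _ isClosed_singleton

instance : NormalSpace Y := normalSpace_of_closed continuous_f surjective_f isClosedMap_f

instance : T4Space Y where

/-! ## `X` is paralindelof -/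

theorem node_length (h : ℕ → ℝ) (n : ℕ) : (node h n).length = n + 1 := by
  induction n with
  | zero => rfl
  | succ n ih => simp [node, ih]

open Classical in
theorem paralindelof_X : Paralindelof X := by
  intro U hUo hUc
  let D : ℕ → Set (ℕ → ℝ) := fun j => {h | ∃ E u, u ∈ U ∧ N j E h ⊆ u}
  have hD : ∀ {j : ℕ} {h g : ℕ → ℝ}, node g j = node h j → h ∈ D j → g ∈ D j := by
    rintro j h g e ⟨E, u, hu, hN⟩
    exact ⟨E, u, hu, by rwa [N_congr e]⟩
  have hex : ∀ h, ∃ j, h ∈ D j := by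
    intro h
    have : X.pt h ∈ ⋃₀ U := by rw [hUc]; trivial
    obtain ⟨u, hu, hh⟩ := this
    obtain ⟨k, E, hk⟩ := hUo u hu h hh
    exact ⟨k, E, u, hu, hk⟩
  let k : (ℕ → ℝ) → ℕ := fun h => Nat.find (hex h)
  have hk : ∀ h, h ∈ D (k h) := fun h => Nat.find_spec (hex h)
  have hkmin : ∀ {h j}, h ∈ D j → k h ≤ j := fun hj => Nat.find_min' (hex _) hj
  have hkc : ∀ {h g}, node g (k h) = node h (k h) → k g = k h := by
    intro h g e
    have h1 : k g ≤ k h := hkmin (hD e (hk h))
    have h2 : k h ≤ k g := hkmin (hD (node_le h1 e).symm (hk g))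
    exact le_antisymm h1 h2
  have : ∀ (z : List ℝ) (j : ℕ), ∃ (E : Finset (Set (ℕ → ℝ))) (u : Set X),
      ∀ h, node h j = z → h ∈ D j → u ∈ U ∧ N j E h ⊆ u := by
    intro z j
    by_cases hz : ∃ h, node h j = z ∧ h ∈ D j
    · obtain ⟨h, hhz, E, u, hu, hN⟩ := hz
      refine ⟨E, u, fun g hg _ => ⟨hu, ?_⟩⟩
      rwa [N_congr (hg.trans hhz.symm)]
    · exact ⟨∅, ∅, fun h h1 h2 => absurd ⟨h, h1, h2⟩ hz⟩
  choose e u heu using this
  let E' : (ℕ → ℝ) → Finset (Set (ℕ → ℝ)) := fun h =>
    e (node h (k h)) (k h) ∪ (Finset.range (k h + 1)).image D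
  have hDE : ∀ h j, j ≤ k h → D j ∈ E' h := fun h j hj =>
    Finset.mem_union_right _ (Finset.mem_image_of_mem _ (Finset.mem_range.2 (by omega)))
  let G : (ℕ → ℝ) → Set X := fun h => N (k h) (E' h) h
  have hG : ∀ {h g}, node g (k h) = node h (k h) → G g = G h := by
    intro h g e1
    have h1 := hkc e1
    have h2 : E' g = E' h := by
      simp only [E', h1, e1]
    simp only [G, h1, h2]
    exact N_congr e1
  have hGu : ∀ h, ∃ t ∈ U, G h ⊆ t := fun h =>
    ⟨_, (heu _ _ h rfl (hk h)).1,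
      (N_anti le_rfl Finset.subset_union_left).trans (heu _ _ h rfl (hk h)).2⟩
  let Γ : List ℝ → Set X := fun z => if hz : ∃ g, node g (k g) = z then G hz.choose else ∅
  have hΓ : ∀ g, Γ (node g (k g)) = G g := by
    intro g
    have hz : ∃ g', node g' (k g') = node g (k g) := ⟨g, rfl⟩
    have h1 : Γ (node g (k g)) = G hz.choose := dif_pos hz
    have h2 := hz.choose_spec
    have h3 : k hz.choose = k g := by
      have := congrArg List.length h2
      rw [node_length, node_length] at this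
      omega
    rw [h1]
    apply hG
    rw [h3] at h2
    exact h2
  refine ⟨Set.range G ∪ {s | ∃ i, s = {X.ed i} ∧ ∀ h, X.ed i ∉ G h}, ?_, ?_, ?_, ?_⟩
  · rintro s (⟨h, rfl⟩ | ⟨i, rfl, -⟩)
    · exact isOpen_N _ _ _
    · exact isOpen_ed _ fun h hh => by simp at hh
  · refine eq_univ_of_forall fun p => ?_
    cases p with
    | pt h => exact ⟨G h, Or.inl ⟨h, rfl⟩, self_mem_N _ _ _⟩
    | ed i =>
      by_cases hi : ∀ h, X.ed i ∉ G h
      · exact ⟨{X.ed i}, Or.inr ⟨i, rfl, hi⟩, rfl⟩
      · push Not at hi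
        obtain ⟨h, hh⟩ := hi
        exact ⟨G h, Or.inl ⟨h, rfl⟩, hh⟩
  · rintro s (⟨h, rfl⟩ | ⟨i, rfl, -⟩)
    · exact hGu h
    · have : X.ed i ∈ ⋃₀ U := by rw [hUc]; trivial
      obtain ⟨t, ht, hit⟩ := this
      exact ⟨t, ht, Set.singleton_subset_iff.2 hit⟩
  · intro p
    cases p with
    | pt h =>
      refine ⟨N (k h + 1) (E' h) h, (isOpen_N _ _ _).mem_nhds (self_mem_N _ _ _), ?_⟩
      have hc : (Γ '' (code (h (k h + 1)) ∪ {node h (k h)})).Countable :=
        ((code_countable _).union (Set.countable_singleton _)).image _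
      refine hc.mono ?_
      rintro s ⟨⟨g, rfl⟩ | ⟨i, rfl, hi⟩, p, hps, hpN⟩
      · refine ⟨node g (k g), ?_, hΓ g⟩
        cases p with
        | pt q =>
          have h1 : node q (k g) = node g (k g) := hps
          have h2 : node q (k h + 1) = node h (k h + 1) := hpN
          have h3 : node q (k h) = node h (k h) := node_pred h2
          have h4 : k q = k g := hkc h1
          have h5 : k q = k h := hkc h3
          right
          rw [Set.mem_singleton_iff, ← h1, ← h4, h5, h3]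
        | ed i =>
          obtain ⟨b, hb1, hb2, hb3⟩ := hps
          obtain ⟨c, hc1, hc2, hc3⟩ := hpN
          have hc4 : node (i.x c) (k h) = node h (k h) := node_pred hc2
          have hkk : k g = k h := by
            rcases le_total (k g) (k h) with hle | hle
            · have h1 : i.x b ∈ D (k g) := hD hb2 (hk g)
              have h2 : i.x c ∈ D (k g) :=
                (i.agree b c _ (hb3 (hDE g _ le_rfl)) (hc3 (hDE h _ hle))).1 h1
              have h3 : h ∈ D (k g) := hD (node_le hle hc4).symm h2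
              exact le_antisymm hle (hkmin h3)
            · have h1 : i.x c ∈ D (k h) := hD hc4 (hk h)
              have h2 : i.x b ∈ D (k h) :=
                (i.agree b c _ (hb3 (hDE g _ hle)) (hc3 (hDE h _ le_rfl))).2 h1
              have h3 : g ∈ D (k h) := hD (node_le hle hb2).symm h2
              exact le_antisymm (hkmin h3) hle
          by_cases hbc : b = c
          · subst hbc
            right
            rw [Set.mem_singleton_iff, ← hb2, hkk, hc4]
          · left
            have h1 := adj_code (k := k h) (by omega) (i.adj c b (Ne.symm hbc))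
            have h2 : i.x c (k h + 1) = h (k h + 1) := node_coord hc2
            rw [h2] at h1
            rw [← hb2, hkk]
            exact h1
      · exfalso
        rw [Set.mem_singleton_iff] at hps
        subst hps
        exact hi h (N_anti (Nat.le_succ _) (Finset.Subset.refl _) hpN)
    | ed i =>
      refine ⟨{X.ed i}, (isOpen_ed _ fun h hh => by simp at hh).mem_nhds rfl, ?_⟩
      have hc : ({G (i.x true), G (i.x false), {X.ed i}} : Set (Set X)).Countable := by
        exact (Set.toFinite _).countable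
      refine hc.mono ?_
      rintro s ⟨⟨g, rfl⟩ | ⟨j, rfl, hj⟩, p, hps, hpN⟩
      · rw [Set.mem_singleton_iff] at hpN
        subst hpN
        obtain ⟨b, hb1, hb2, hb3⟩ := hps
        have h1 : G (i.x b) = G g := hG hb2
        rw [← h1]
        cases b <;> simp
      · rw [Set.mem_singleton_iff] at hpN
        subst hpN
        rw [Set.mem_singleton_iff] at hps
        rw [hps]
        simp

/-! ## `Y` is not paralindelof -/

theorem not_paralindelof_Y : ¬ Paralindelof Y := by
  intro hP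
  obtain ⟨V, hVo, hVc, hVr, hVl⟩ := hP (Set.range fun a : ℝ => insert (Y.pt a) (Set.range Y.ed))
    (by
      rintro _ ⟨a, rfl⟩
      rw [isOpen_Y]
      intro h hh
      refine ⟨0, ∅, ?_⟩
      intro p hp
      cases p with
      | pt g =>
        have h1 : g 0 = h 0 := node_zero hp
        have h2 : f (X.pt h) ∈ insert (Y.pt a) (Set.range Y.ed) := hh
        have h3 : h 0 = a := by simpa [f] using h2
        show f (X.pt g) ∈ insert (Y.pt a) (Set.range Y.ed)
        left
        rw [f, h1, h3]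
      | ed i => exact Or.inr ⟨i, rfl⟩)
    (by
      refine eq_univ_of_forall fun y => ?_
      cases y with
      | pt a => exact ⟨_, ⟨a, rfl⟩, Or.inl rfl⟩
      | ed i => exact ⟨_, ⟨0, rfl⟩, Or.inr ⟨i, rfl⟩⟩)
  have hv : ∀ a : ℝ, ∃ v ∈ V, Y.pt a ∈ v := by
    intro a
    have : Y.pt a ∈ ⋃₀ V := by rw [hVc]; trivial
    exact this
  choose v hvV hav using hv
  have hvu : ∀ a b, Y.pt b ∈ v a → b = a := by
    intro a b hb
    obtain ⟨_, ⟨c, rfl⟩, hc⟩ := hVr (v a) (hvV a)
    have h1 : a = c := by simpa using hc (hav a)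
    have h2 : b = c := by simpa using hc hb
    rw [h1, h2]
  choose W hW hWc using fun a : ℝ => hVl (Y.pt a)
  let O : ℝ → Set Y := fun a => interior (W a) ∩ v a
  have hOo : ∀ a, IsOpen (O a) := fun a => isOpen_interior.inter (hVo _ (hvV a))
  have haO : ∀ a, Y.pt a ∈ O a := fun a => ⟨mem_interior_iff_mem_nhds.2 (hW a), hav a⟩
  have hOc : ∀ a, {b | (O a ∩ O b).Nonempty}.Countable := by
    intro a
    refine Set.MapsTo.countable_of_injOn (f := v)
      (t := {s | s ∈ V ∧ (s ∩ W a).Nonempty}) ?_ ?_ (hWc a)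
    · rintro b ⟨y, hy1, hy2⟩
      exact ⟨hvV b, y, hy2.2, interior_subset hy1.1⟩
    · intro b _ c _ hbc
      apply hvu
      rw [← hbc]
      exact hav b
  obtain ⟨A, hA⟩ := zorn_subset {A : Set ℝ | A.Pairwise fun a b => ¬ (O a ∩ O b).Nonempty} (by
    intro c hc hch
    refine ⟨⋃₀ c, ?_, fun s hs => subset_sUnion_of_mem hs⟩
    exact (Set.pairwise_sUnion hch.directedOn).2 fun a ha => hc ha)
  have hAunc : ¬ A.Countable := by
    intro hAc
    apply Cardinal.not_countable_real
    refine (hAc.union (hAc.biUnion fun a _ => hOc a)).mono ?_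
    intro b _
    by_contra hb
    have hbA : b ∉ A := fun h => hb (Or.inl h)
    have hins : insert b A ∈ {A : Set ℝ | A.Pairwise fun a b => ¬ (O a ∩ O b).Nonempty} := by
      refine Set.pairwise_insert.2 ⟨hA.1, fun a ha _ => ?_⟩
      have h1 : ¬ (O a ∩ O b).Nonempty := fun h => hb (Or.inr (mem_iUnion₂.2 ⟨a, ha, h⟩))
      exact ⟨fun h => h1 (by rwa [Set.inter_comm]), h1⟩
    exact hbA (hA.2 hins (Set.subset_insert _ _) (Set.mem_insert _ _))
  have : ∀ h : ℕ → ℝ, ∃ k E, N k E h ⊆ f ⁻¹' O (h 0) := fun h =>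
    (isOpen_Y.1 (hOo (h 0))) h (haO (h 0))
  choose k E hkE using this
  obtain ⟨h, g, hh, hg, hhg, p, hp1, hp2⟩ := nonsep A hAunc k E
  exact hA.1 hh hg hhg ⟨f p, hkE h hp1, hkE g hp2⟩

/-- Q2 fails, even for normal spaces. There are normal Hausdorff spaces `X` and `Y` and a
continuous closed surjection of `X` onto `Y` such that `X` is paralindelof and `Y` is not. -/
theorem result : ∃ (X Y : Type) (_ : TopologicalSpace X) (_ : TopologicalSpace Y) (f : X → Y),
    T4Space X ∧ T4Space Y ∧ Continuous f ∧ Function.Surjective f ∧ IsClosedMap f ∧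
      Paralindelof X ∧ ¬ Paralindelof Y :=
  ⟨X, Y, inferInstance, inferInstance, f, inferInstance, inferInstance, continuous_f,
    surjective_f, isClosedMap_f, paralindelof_X, not_paralindelof_Y⟩

end Pool.Agent.Results.MP_6bd103_gt.ClosedImages
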