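import Mathlib

/-!
# MP_6bd103_gt, Q1: perfect images of paralindelof spaces are paralindelof

A family of sets is locally countable if every point has a neighbourhood meeting only countably
many of its members; a space is paralindelof if every open cover has a locally countable open
refinement.
-/

namespace Pool.Agent.Results.MP_6bd103_gt.PerfectImages

open Set Topology

universe u v

/-- Every point has a neighbourhood meeting only countably many members of `V`. -/
def LocallyCountable {X : Type u} [TopologicalSpace X] (V : Set (Set X)) : Prop :=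
  ∀ x : X, ∃ N ∈ 𝓝 x, {s | s ∈ V ∧ (s ∩ N).Nonempty}.Countable

/-- Every open cover has a locally countable open refinement (which is again a cover). -/
def Paralindelof (X : Type u) [TopologicalSpace X] : Prop :=
  ∀ U : Set (Set X), (∀ s ∈ U, IsOpen s) → ⋃₀ U = univ →
    ∃ V : Set (Set X), (∀ s ∈ V, IsOpen s) ∧ ⋃₀ V = univ ∧ (∀ s ∈ V, ∃ t ∈ U, s ⊆ t) ∧
      LocallyCountable V

section core

variable {X : Type u} {Y : Type v} [TopologicalSpace X] [TopologicalSpace Y]

/-- The small image of an open set under a closed map is open. -/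
lemma isOpen_small {f : X → Y} (hc : IsClosedMap f) {W : Set X} (hW : IsOpen W) :
    IsOpen (f '' Wᶜ)ᶜ :=
  (hc _ hW.isClosed_compl).isOpen_compl

omit [TopologicalSpace X] [TopologicalSpace Y] in
lemma preimage_small {f : X → Y} {W : Set X} : f ⁻¹' (f '' Wᶜ)ᶜ ⊆ W := by
  intro x hx
  by_contra h
  exact hx ⟨x, h, rfl⟩

/-- If the fibres are Lindelof and `f` is closed, then every point of the image has an open
neighbourhood whose preimage meets only countably many members of a locally countable family. -/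
lemma exists_open_nhd {f : X → Y} (hc : IsClosedMap f) (hL : ∀ y, IsLindelof (f ⁻¹' {y}))
    {V : Set (Set X)} (hV : LocallyCountable V) (y : Y) :
    ∃ O : Set Y, IsOpen O ∧ y ∈ O ∧ {s | s ∈ V ∧ (s ∩ f ⁻¹' O).Nonempty}.Countable := by
  choose N hN hNc using hV
  obtain ⟨t, htc, -, ht⟩ := (hL y).elim_nhds_subcover (fun x => interior (N x))
    (fun x _ => interior_mem_nhds.2 (hN x))
  set W : Set X := ⋃ x ∈ t, interior (N x) with hW
  have hWo : IsOpen W := isOpen_biUnion fun x _ => isOpen_interior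
  refine ⟨(f '' Wᶜ)ᶜ, isOpen_small hc hWo, ?_, ?_⟩
  · rintro ⟨x, hx, hxy⟩
    exact hx (ht hxy)
  · refine (htc.biUnion fun x _ => hNc x).mono ?_
    rintro s ⟨hsV, z, hzs, hz⟩
    have hzW : z ∈ W := preimage_small hz
    rw [hW] at hzW
    obtain ⟨x, hx, hzx⟩ := mem_iUnion₂.1 hzW
    exact mem_iUnion₂.2 ⟨x, hx, hsV, z, hzs, interior_subset hzx⟩

/-- Closed images of paralindelof spaces with Lindelof fibres are paralindelof. -/
theorem closed_image {f : X → Y} (hf : Continuous f) (hs : Function.Surjective f)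
    (hc : IsClosedMap f) (hL : ∀ y, IsLindelof (f ⁻¹' {y})) (hX : Paralindelof X) :
    Paralindelof Y := by
  intro U hUo hUc
  obtain ⟨V, hVo, hVc, hVr, hVl⟩ := hX ((fun s => f ⁻¹' s) '' U)
    (by rintro _ ⟨s, hs, rfl⟩; exact (hUo s hs).preimage hf)
    (by
      refine eq_univ_of_forall fun x => ?_
      have : f x ∈ ⋃₀ U := by rw [hUc]; trivial
      obtain ⟨s, hs, hx⟩ := this
      exact ⟨f ⁻¹' s, ⟨s, hs, rfl⟩, hx⟩)
  have hVr' : ∀ s : Set X, ∃ u : Set Y, s ∈ V → u ∈ U ∧ s ⊆ f ⁻¹' u := by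
    intro s
    by_cases h : s ∈ V
    · obtain ⟨_, ⟨u, hu, rfl⟩, hsu⟩ := hVr s h
      exact ⟨u, fun _ => ⟨hu, hsu⟩⟩
    · exact ⟨univ, fun h' => absurd h' h⟩
  choose u hu using hVr'
  choose O hOo hOy hOc using fun y => exists_open_nhd hc hL hVl y
  obtain ⟨W, hWo, hWc, hWr, hWl⟩ := hX (range fun y => f ⁻¹' (O y))
    (by rintro _ ⟨y, rfl⟩; exact (hOo y).preimage hf)
    (by
      refine eq_univ_of_forall fun x => ?_
      exact ⟨f ⁻¹' (O (f x)), ⟨f x, rfl⟩, hOy (f x)⟩)
  choose P hPo hPy hPc using fun y => exists_open_nhd hc hL hWl y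
  -- the star of a fibre with respect to `W`
  let St : Y → Set X := fun z => ⋃₀ {w | w ∈ W ∧ (w ∩ f ⁻¹' {z}).Nonempty}
  have hSto : ∀ z, IsOpen (St z) := fun z => isOpen_sUnion fun w hw => hWo w hw.1
  have hSt : ∀ z, f ⁻¹' {z} ⊆ St z := by
    intro z x hx
    have : x ∈ ⋃₀ W := by rw [hWc]; trivial
    obtain ⟨w, hw, hxw⟩ := this
    exact ⟨w, ⟨hw, x, hxw, hx⟩, hxw⟩
  let G : Y → Set Y := fun z => (f '' (St z)ᶜ)ᶜ
  have hGo : ∀ z, IsOpen (G z) := fun z => isOpen_small hc (hSto z)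
  have hGz : ∀ z, z ∈ G z := by
    rintro z ⟨x, hx, hxz⟩
    exact hx (hSt z hxz)
  let E : Set X → Set Y := fun s => ⋃ x ∈ s, G (f x)
  have hEo : ∀ s, IsOpen (E s) := fun s => isOpen_biUnion fun x _ => hGo _
  have hE : ∀ s : Set X, ∀ x ∈ s, f x ∈ E s := fun s x hx => mem_iUnion₂.2 ⟨x, hx, hGz _⟩
  refine ⟨(fun s => E s ∩ u s) '' V, ?_, ?_, ?_, ?_⟩
  · rintro _ ⟨s, hsV, rfl⟩
    exact (hEo s).inter (hUo _ (hu s hsV).1)
  · refine eq_univ_of_forall fun y => ?_
    obtain ⟨x, rfl⟩ := hs y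
    have : x ∈ ⋃₀ V := by rw [hVc]; trivial
    obtain ⟨s, hsV, hx⟩ := this
    exact ⟨E s ∩ u s, ⟨s, hsV, rfl⟩, hE s x hx, (hu s hsV).2 hx⟩
  · rintro _ ⟨s, hsV, rfl⟩
    exact ⟨u s, (hu s hsV).1, inter_subset_right⟩
  · intro y
    refine ⟨P y, (hPo y).mem_nhds (hPy y), ?_⟩
    -- members of `V` whose expansion meets `P y`
    have key : {s | s ∈ V ∧ (E s ∩ P y).Nonempty} ⊆
        ⋃ w ∈ {w | w ∈ W ∧ (w ∩ f ⁻¹' (P y)).Nonempty},
          {s | s ∈ V ∧ (s ∩ f ⁻¹' (f '' w)).Nonempty} := by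
      rintro s ⟨hsV, q, hqE, hqP⟩
      obtain ⟨x, hxs, hqG⟩ := mem_iUnion₂.1 hqE
      obtain ⟨p, rfl⟩ := hs q
      have hp : p ∈ St (f x) := by
        by_contra h
        exact hqG ⟨p, h, rfl⟩
      obtain ⟨w, ⟨hwW, r, hrw, hr⟩, hpw⟩ := hp
      refine mem_iUnion₂.2 ⟨w, ⟨hwW, p, hpw, hqP⟩, hsV, x, hxs, ?_⟩
      exact ⟨r, hrw, hr⟩
    have hcount : {s | s ∈ V ∧ (E s ∩ P y).Nonempty}.Countable := by
      refine ((hPc y).biUnion fun w hw => ?_).mono key
      obtain ⟨_, ⟨z, rfl⟩, hwz⟩ := hWr w hw.1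
      refine (hOc z).mono ?_
      rintro s ⟨hsV, x, hxs, r, hrw, hr⟩
      refine ⟨hsV, x, hxs, ?_⟩
      have : f r ∈ O z := hwz hrw
      rw [hr] at this
      exact this
    refine (hcount.image (fun s => E s ∩ u s)).mono ?_
    rintro _ ⟨⟨s, hsV, rfl⟩, q, hq, hqP⟩
    exact ⟨s, ⟨hsV, q, hq.1, hqP⟩, rfl⟩

end core

/-- Let `X` be a paralindelof space and let `f : X → Y` be a continuous closed surjection whose
fibres are Lindelof (in particular, any perfect mapping). Then `Y` is paralindelof. No separation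
axiom is needed. -/
theorem result (X : Type u) (Y : Type v) [TopologicalSpace X] [TopologicalSpace Y] (f : X → Y)
    (hf : Continuous f) (hs : Function.Surjective f) (hc : IsClosedMap f)
    (hL : ∀ y, IsLindelof (f ⁻¹' {y})) (hX : Paralindelof X) : Paralindelof Y :=
  closed_image hf hs hc hL hX

/-- Q1 as posed: perfect images of paralindelof spaces are paralindelof. -/
theorem perfect_image (X : Type u) (Y : Type v) [TopologicalSpace X] [TopologicalSpace Y]
    (f : X → Y) (hf : Continuous f) (hs : Function.Surjective f) (hc : IsClosedMap f)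
    (hK : ∀ y, IsCompact (f ⁻¹' {y})) (hX : Paralindelof X) : Paralindelof Y :=
  result X Y f hf hs hc (fun y => (hK y).isLindelof) hX

end Pool.Agent.Results.MP_6bd103_gt.PerfectImages
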